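import Mathlib
import Pool.Agent.Lib.CRam.Defs
import Pool.Agent.Lib.CRam.Final

/-!
# MP_183346_co : cycle Ramsey properties of sparse random graphs (all four statements hold)

`CRam.gnpProb N p E` is the probability of the event `E` in the binomial random graph on `Fin N`,
`CRam.Arrows F k l` is the arrow relation of the graph `F` for the cycle of length `l` and `k`
colours (a colouring of the edges is given by a map `Sym2 V → Fin k`).
-/

open Filter Topology

namespace Pool.Agent.Results.MP_183346_co.CycleRamsey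

/-- For every `p = p(n)` in `(0, 1]` with `p n → ∞` and every `δ > 0`, the four arrow statements
`G((8+δ)n, p) → (C_{2n+1})_3`, `G((4+δ)n, p) → (C_{2n+1})_2`, `G((4+δ)n, p) → (C_{2n})_3` and
`G((3+δ)n, p) → (C_{2n})_2` hold with probability tending to `1`. -/
theorem result :
    ∀ p : ℕ → ℝ, (∀ n, 0 < p n ∧ p n ≤ 1) →
      Tendsto (fun n : ℕ => p n * (n : ℝ)) atTop atTop →
      ∀ δ : ℝ, 0 < δ →
        Tendsto (fun n : ℕ => CRam.gnpProb ⌊(8 + δ) * (n : ℝ)⌋₊ (p n)
          (fun G => CRam.Arrows G 3 (2 * n + 1))) atTop (𝓝 1) ∧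
        Tendsto (fun n : ℕ => CRam.gnpProb ⌊(4 + δ) * (n : ℝ)⌋₊ (p n)
          (fun G => CRam.Arrows G 2 (2 * n + 1))) atTop (𝓝 1) ∧
        Tendsto (fun n : ℕ => CRam.gnpProb ⌊(4 + δ) * (n : ℝ)⌋₊ (p n)
          (fun G => CRam.Arrows G 3 (2 * n))) atTop (𝓝 1) ∧
        Tendsto (fun n : ℕ => CRam.gnpProb ⌊(3 + δ) * (n : ℝ)⌋₊ (p n)
          (fun G => CRam.Arrows G 2 (2 * n))) atTop (𝓝 1) :=
  fun p hp hpn δ hδ => CRam.main p hp hpn δ hδ

end Pool.Agent.Results.MP_183346_co.CycleRamsey
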